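import Pool.Agent.K6.H14.KB.Alg

/-!
# The braids for which the normalised functional is `1`
-/

set_option autoImplicit false

namespace Pool.Agent.K6.H14.KB

open LaurentPolynomial Complex Pool.Agent.K6.H34.S3

section rep

variable {S : Type*} [CommRing S]

theorem chi_fam (a : Sˣ) (m k ε : ℤ) :
    chi a (C3 ^ m * (σ 0 ^ k * σ 1 ^ ε * σ 0 ^ (-k))) = a ^ (6 * m + ε) := by
  rw [chi_eq]
  congr 1
  simp only [map_mul, map_zpow, C3, X3, ex_σ, toAdd_mul, toAdd_zpow, toAdd_ofAdd, smul_eq_mul]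
  ring

theorem ex_fam (m k ε : ℤ) :
    ex (C3 ^ m * (σ 0 ^ k * σ 1 ^ ε * σ 0 ^ (-k))) = Multiplicative.ofAdd (6 * m + ε) := by
  apply Multiplicative.toAdd.injective
  simp only [map_mul, map_zpow, C3, X3, ex_σ, toAdd_mul, toAdd_zpow, toAdd_ofAdd, smul_eq_mul]
  ring

theorem tb_fam (a : Sˣ) {ε : ℤ} (hε : ε = 1 ∨ ε = -1) (k : ℤ) :
    tb a (R a (σ 0 ^ k * σ 1 ^ ε * σ 0 ^ (-k))).val =
      (1 + dl a) * (-((a ^ (3 * ε) : Sˣ) : S)) - (dl a ^ 2 - 2) * ((a ^ ε : Sˣ) : S) := by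
  rw [tb_conj]
  rcases hε with rfl | rfl
  · rw [tb_one]
    have h3 : ((a ^ (3 * (1:ℤ)) : Sˣ) : S) = (a : S) ^ 3 := by
      rw [mul_one, show (3 : ℤ) = ((3 : ℕ) : ℤ) from rfl, zpow_natCast, Units.val_pow_eq_pow_val]
    rw [h3, zpow_one]
  · rw [tb_neg]
    have h3 : ((a ^ (3 * (-1:ℤ)) : Sˣ) : S) = ((a⁻¹ : Sˣ) : S) ^ 3 := by
      rw [mul_neg_one, zpow_neg, ← inv_zpow, show (3 : ℤ) = ((3 : ℕ) : ℤ) from rfl, zpow_natCast,
        Units.val_pow_eq_pow_val]
    rw [h3, zpow_neg_one]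

theorem LamB_fam (a : Sˣ) {ε : ℤ} (hε : ε = 1 ∨ ε = -1) (m k : ℤ) :
    LamB a (C3 ^ m * (σ 0 ^ k * σ 1 ^ ε * σ 0 ^ (-k))) =
      (dl a ^ 2 - 2) * ((a ^ (6 * m + ε) : Sˣ) : S) + ((a ^ (-(6 * m)) : Sˣ) : S) *
        ((1 + dl a) * (-((a ^ (3 * ε) : Sˣ) : S)) - (dl a ^ 2 - 2) * ((a ^ ε : Sˣ) : S)) := by
  rw [LamB, tb_C, tb_fam a hε, chi_fam]
  congr 2
  rw [zpow_neg, inv_pow, inv_zpow, zpow_mul]
  rfl

variable {S' : Type*} [CommRing S'] (φ : S →+* S')

theorem LamB_map (a : Sˣ) (g : B3) : φ (LamB a g) = LamB (Units.map φ.toMonoidHom a) g := by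
  have h1 : chi (Units.map φ.toMonoidHom a) g = Units.map φ.toMonoidHom (chi a g) := by
    rw [chi_eq, chi_eq, map_zpow]
  rw [LamB, LamB, R_map, h1]
  have h2 : φ 2 = 2 := map_ofNat φ 2
  simp [tb, dl, h2]

end rep

theorem LamB_eight (z : ℂˣ) (hz : (z : ℂ) ^ 2 = I) (g : B3) :
    LamB z g = ((chi z g : ℂˣ) : ℂ) * (-2 + (Z g).val 0 0 + (Z g).val 1 1 + I * (Z g).val 0 1) := by
  have hd : dl z = 0 := by
    rw [dl, inv_eight z hz]
    linear_combination (-1 - I ^ 2) * hz + (-I) * I_mul_I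
  rw [LamB, hd, R_eight z hz, tb, hd]
  simp
  ring

theorem evU_LamB {S : Type*} [CommRing S] (z : Sˣ) (g : B3) : evU z (LamB uT g) = LamB z g := by
  rw [LamB_map, map_uT]

theorem Z_fam (k ε : ℤ) : (Z (σ 0 ^ k * σ 1 ^ ε * σ 0 ^ (-k))).val =
    !![1 + k * ε, -ε; k ^ 2 * ε, 1 - k * ε] := by
  rw [map_mul, map_mul, Units.val_mul, Units.val_mul, Z_0pow, Z_1pow, Z_0pow]
  ext i j
  fin_cases i <;> fin_cases j <;> simp [Matrix.mul_apply, Fin.sum_univ_two]
  all_goals ring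

/-- if the image has trace `2` and `Z g 0 1 = ± 1` then `g` belongs to the family up to full twists -/
theorem of_imageB {g : B3} {ε : ℤ} (hε : ε = 1 ∨ ε = -1)
    (h1 : (Z g).val 0 0 + (Z g).val 1 1 = 2) (h2 : (Z g).val 0 1 = -ε) :
    ∃ m k : ℤ, g = C3 ^ m * (σ 0 ^ k * σ 1 ^ ε * σ 0 ^ (-k)) := by
  have hd := Z_det g
  rw [Matrix.det_fin_two, h2] at hd
  have hεε : ε * ε = 1 := by rcases hε with rfl | rfl <;> norm_num
  set k : ℤ := ε * ((Z g).val 0 0 - 1) with hk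
  have key : Z g = Z (σ 0 ^ k * σ 1 ^ ε * σ 0 ^ (-k)) := by
    apply Units.ext
    rw [Z_fam k ε]
    have hkε : k * ε = (Z g).val 0 0 - 1 := by
      rw [hk]; linear_combination ((Z g).val 0 0 - 1) * hεε
    have hk2 : k ^ 2 * ε = ε * ((Z g).val 0 0 - 1) ^ 2 := by
      rw [hk]; linear_combination (ε * ((Z g).val 0 0 - 1) ^ 2) * hεε
    have h3 : (Z g).val 1 0 = ε * ((Z g).val 0 0 - 1) ^ 2 := by
      have h4 : (Z g).val 1 1 = 2 - (Z g).val 0 0 := by linarith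
      rw [h4] at hd
      linear_combination (-(Z g).val 1 0) * hεε + ε * hd
    ext i j
    fin_cases i <;> fin_cases j
    · simp [hkε]
    · simp [h2]
    · simp [hk2, h3]
    · simp [hkε]; linarith
  obtain ⟨m, hm⟩ : ∃ m : ℤ, g * (σ 0 ^ k * σ 1 ^ ε * σ 0 ^ (-k))⁻¹ = C3 ^ m := by
    apply kernel
    rw [map_mul, map_inv]
    left; rw [key, mul_inv_cancel]
  exact ⟨m, k, by rw [← hm]; group⟩

theorem I_pow_cases (e : ℤ) : (Even e ∧ (I ^ e = 1 ∨ I ^ e = -1)) ∨ (Odd e ∧ (I ^ e = I ∨ I ^ e = -I)) := by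
  rcases Int.even_or_odd' e with ⟨f, hf | hf⟩
  · left
    refine ⟨⟨f, by omega⟩, ?_⟩
    rw [hf, zpow_mul]
    have : (I ^ (2 : ℤ) : ℂ) = -1 := by
      rw [show (2 : ℤ) = ((2 : ℕ) : ℤ) from rfl, zpow_natCast, I_sq]
    rw [this]
    rcases Int.even_or_odd f with h | h
    · left; rw [Even.neg_zpow h, one_zpow]
    · right; rw [Odd.neg_zpow h, one_zpow]
  · right
    refine ⟨⟨f, hf⟩, ?_⟩
    rw [hf, zpow_add_one₀ I_ne_zero, zpow_mul]
    have : (I ^ (2 : ℤ) : ℂ) = -1 := by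
      rw [show (2 : ℤ) = ((2 : ℕ) : ℤ) from rfl, zpow_natCast, I_sq]
    rw [this]
    rcases Int.even_or_odd f with h | h
    · left; rw [Even.neg_zpow h, one_zpow, one_mul]
    · right; rw [Odd.neg_zpow h, one_zpow, neg_one_mul]

/-- the first step: evaluation at a primitive eighth root of unity -/
theorem stepB_one {g : B3} {e : ℤ} (he : ex g = Multiplicative.ofAdd e)
    (hP : (1 + dl uT) * (sgn e * T (3 * e)) = LamB uT g) :
    ∃ m k ε : ℤ, (ε = 1 ∨ ε = -1) ∧ g = C3 ^ m * (σ 0 ^ k * σ 1 ^ ε * σ 0 ^ (-k)) := by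
  obtain ⟨z, hz⟩ := exists_eight
  have hd : dl z = 0 := by
    rw [dl, inv_eight z hz]
    linear_combination (-1 - I ^ 2) * hz + (-I) * I_mul_I
  have h1 := congrArg (evU z) hP
  rw [evU_LamB, LamB_eight z hz, map_mul, map_add, map_one, evU_dl, hd, add_zero, one_mul, map_mul,
    evU_T, chi_eq, he] at h1
  change _ = ((z ^ e : ℂˣ) : ℂ) * _ at h1
  have h2 : ((z ^ (3 * e) : ℂˣ) : ℂ) = ((z ^ e : ℂˣ) : ℂ) * I ^ e := by
    have : (3 * e) = e + 2 * e := by ring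
    rw [this, zpow_add, Units.val_mul]
    congr 1
    rw [zpow_mul, Units.val_zpow_eq_zpow_val]
    congr 1
  rw [h2] at h1
  have hc : ((z ^ e : ℂˣ) : ℂ) ≠ 0 := Units.ne_zero _
  have h3 : evU z (sgn e) * I ^ e =
      (-2 + (Z g).val 0 0 + (Z g).val 1 1 + I * (Z g).val 0 1 : ℂ) := by
    apply mul_left_cancel₀ hc
    rw [← h1]
    ring
  have hdet := Z_det g
  rw [Matrix.det_fin_two] at hdet
  rcases I_pow_cases e with ⟨hev, h4⟩ | ⟨hodd, h4⟩
  · -- even
    exfalso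
    have h5 : evU z (sgn e) = 1 := by rw [sgn, if_pos hev, map_one]
    rw [h5, one_mul] at h3
    have hre := congrArg Complex.re h3
    have him := congrArg Complex.im h3
    have key : (Z g).val 0 1 = 0 ∧ ((Z g).val 0 0 + (Z g).val 1 1 = 3 ∨
        (Z g).val 0 0 + (Z g).val 1 1 = 1) := by
      rcases h4 with h4 | h4
      · rw [h4] at hre him
        simp at hre him
        refine ⟨?_, Or.inl ?_⟩
        · exact_mod_cast him.symm
        · have : ((Z g).val 0 0 : ℝ) + ((Z g).val 1 1 : ℝ) = 3 := by linarith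
          exact_mod_cast this
      · rw [h4] at hre him
        simp at hre him
        refine ⟨?_, Or.inr ?_⟩
        · exact_mod_cast him.symm
        · have : ((Z g).val 0 0 : ℝ) + ((Z g).val 1 1 : ℝ) = 1 := by linarith
          exact_mod_cast this
    obtain ⟨k1, k2⟩ := key
    rw [k1, zero_mul, sub_zero] at hdet
    rcases Int.eq_one_or_neg_one_of_mul_eq_one' hdet with ⟨h6, h7⟩ | ⟨h6, h7⟩ <;>
      rw [h6, h7] at k2 <;> omega
  · -- odd
    have h5 : evU z (sgn e) = -1 := by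
      rw [sgn, if_neg (by rw [Int.not_even_iff_odd]; exact hodd), map_neg, map_one]
    rw [h5] at h3
    have hre := congrArg Complex.re h3
    have him := congrArg Complex.im h3
    have key : (Z g).val 0 0 + (Z g).val 1 1 = 2 ∧ ∃ ε : ℤ, (ε = 1 ∨ ε = -1) ∧ (Z g).val 0 1 = -ε := by
      rcases h4 with h4 | h4
      · rw [h4] at hre him
        simp at hre him
        refine ⟨?_, 1, Or.inl rfl, ?_⟩
        · have : ((Z g).val 0 0 : ℝ) + ((Z g).val 1 1 : ℝ) = 2 := by linarith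
          exact_mod_cast this
        · have : ((Z g).val 0 1 : ℝ) = -1 := by linarith
          exact_mod_cast this
      · rw [h4] at hre him
        simp at hre him
        refine ⟨?_, -1, Or.inr rfl, ?_⟩
        · have : ((Z g).val 0 0 : ℝ) + ((Z g).val 1 1 : ℝ) = 2 := by linarith
          exact_mod_cast this
        · have : ((Z g).val 0 1 : ℝ) = 1 := by linarith
          rw [neg_neg]
          exact_mod_cast this
    obtain ⟨k1, ε, hε, k2⟩ := key
    obtain ⟨m, k, hm⟩ := of_imageB hε k1 k2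
    exact ⟨m, k, ε, hε, hm⟩

/-- the second step: no full twists -/
theorem stepB_two {m ε : ℤ} (hε : ε = 1 ∨ ε = -1)
    (h : (1 + dl uT) * (sgn (6 * m + ε) * T (3 * (6 * m + ε))) =
      (dl uT ^ 2 - 2) * T (6 * m + ε) + T (-(6 * m)) *
        ((1 + dl uT) * (-T (3 * ε)) - (dl uT ^ 2 - 2) * T ε)) : m = 0 := by
  have hodd : ¬ Even (6 * m + ε) := by
    rw [Int.not_even_iff_odd]
    rcases hε with rfl | rfl
    · exact ⟨3 * m, by ring⟩
    · exact ⟨3 * m - 1, by ring⟩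
  rw [sgn, if_neg hodd] at h
  have h1 := congrArg (evU (Units.mk0 (2 : ℝ) (by norm_num))) h
  simp only [map_mul, map_add, map_sub, map_neg, map_pow, map_one, evU_dl, evU_T,
    map_ofNat] at h1
  simp only [dl, Units.val_zpow_eq_zpow_val, Units.val_mk0, Units.val_inv_eq_inv_val] at h1
  have h2 : (2 : ℝ) ^ (3 * (6 * m + ε)) = ((2 : ℝ) ^ (6 * m)) ^ 3 * 2 ^ (3 * ε) := by
    rw [show 3 * (6 * m + ε) = (6 * m) * ((3 : ℕ) : ℤ) + 3 * ε by push_cast; ring,
      zpow_add₀ (by norm_num), zpow_mul, zpow_natCast]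
  have h2' : (2 : ℝ) ^ (6 * m + ε) = (2 : ℝ) ^ (6 * m) * 2 ^ ε := zpow_add₀ (by norm_num) _ _
  rw [h2, h2', zpow_neg] at h1
  have hpos : (0 : ℝ) < 2 ^ (6 * m) := by positivity
  have hbig : m ≠ 0 → (2 : ℝ) ^ (6 * m) ≤ 1 / 64 ∨ 64 ≤ (2 : ℝ) ^ (6 * m) := by
    intro hm
    rcases lt_or_gt_of_ne hm with h5 | h5
    · left
      have h6 : (2 : ℝ) ^ (6 * m) ≤ (2 : ℝ) ^ (-6 : ℤ) :=
        zpow_le_zpow_right₀ (by norm_num) (by omega)
      norm_num at h6 ⊢
      exact h6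
    · right
      have h6 : (2 : ℝ) ^ (6 : ℤ) ≤ (2 : ℝ) ^ (6 * m) := zpow_le_zpow_right₀ (by norm_num) (by omega)
      norm_num at h6 ⊢
      exact h6
  by_contra hm
  have hb := hbig hm
  set y := (2 : ℝ) ^ (6 * m) with hy
  rcases hε with rfl | rfl
  · have h3 : (y ^ 2 - 1) * (208 * y ^ 2 - 49) = 0 := by
      norm_num at h1
      field_simp at h1
      nlinarith
    rcases mul_eq_zero.1 h3 with h4 | h4 <;> rcases hb with hb | hb <;> nlinarith
  · have h3 : (y ^ 2 - 1) * (13 * y ^ 2 - 244) = 0 := by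
      norm_num at h1
      field_simp at h1
      nlinarith
    rcases mul_eq_zero.1 h3 with h4 | h4 <;> rcases hb with hb | hb <;> nlinarith

/-- **The algebraic form of the theorem.** -/
theorem algB_main {g : B3} {e : ℤ} (he : ex g = Multiplicative.ofAdd e) {P : ℤ[T;T⁻¹]}
    (hP : (1 + dl uT) * P = LamB uT g) :
    sgn e * T (-3 * e) * P = 1 ↔
      ∃ k ε : ℤ, (ε = 1 ∨ ε = -1) ∧ g = σ 0 ^ k * σ 1 ^ ε * σ 0 ^ (-k) := by
  constructor
  · intro h
    have h1 := P_eq h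
    rw [h1] at hP
    obtain ⟨m, k, ε, hε, hg⟩ := stepB_one he hP
    have h2 : e = 6 * m + ε := by
      rw [hg, ex_fam] at he
      exact (Multiplicative.ofAdd.injective he).symm
    have h3 : m = 0 := by
      apply stepB_two hε
      rw [hg, LamB_fam uT hε, uT_zpow, uT_zpow, uT_zpow, uT_zpow, h2] at hP
      exact hP
    subst h3
    exact ⟨k, ε, hε, by simpa using hg⟩
  · rintro ⟨k, ε, hε, hk⟩
    have h1 : e = ε := by
      have := ex_fam 0 k ε
      rw [zpow_zero, one_mul, ← hk, he] at this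
      have := Multiplicative.ofAdd.injective this
      simpa using this
    subst h1
    have h2 := LamB_fam uT hε 0 k
    rw [zpow_zero, one_mul, ← hk, ← hP, uT_zpow, uT_zpow, uT_zpow, uT_zpow] at h2
    have h3 : P = -T (3 * e) := by
      apply mul_left_cancel₀ one_add_dl_ne
      rw [h2]
      simp only [mul_zero, neg_zero, zero_add, T_zero]
      ring
    have hodd : ¬ Even e := by
      rcases hε with rfl | rfl <;> decide
    rw [h3, sgn, if_neg hodd]
    have : (T (-3 * e) : ℤ[T;T⁻¹]) * T (3 * e) = 1 := by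
      rw [← T_add]
      have : -3 * e + 3 * e = 0 := by ring
      rw [this, T_zero]
    linear_combination this

end Pool.Agent.K6.H14.KB
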