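import Pool.Agent.K6.H34.S3.Defs

/-!
# Knotoids cut out of closed braids on three strands

`Outer m` (starting library `Pool.Agent.H891R2.Jones.Diagram`): the part of an oriented diagram outside
a box through which `m` strands run; `draw O w` (starting library `Pool.Agent.W639.RB.Defs`): the word
`w` in the letters `(true, i) = σ_i`, `(false, i) = σ_i⁻¹` is drawn in the box, from the bottom to the
top; `Outer.close`: the rest of the box is filled with vertical strands.  `Word`, `nat`, `B3`, `σ`,
`braid` are defined in `Pool.Agent.K6.H34.S3.Defs`.

The closure of a braid word `w σ_i^{±1}` on three strands is a box with the word `w`, and outside of it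
the crossing `σ_i^{±1}`, where two strands cross which lead from the upper ends at the places `i`, `i + 1`
of the box around the box to its lower ends at the places `i + 1`, `i`, and one more strand from the upper
to the lower end at the remaining place.  If one of the two strands is deleted at the crossing then the
diagram of a knotoid remains.
-/

set_option autoImplicit false

namespace Pool.Agent.K6.H14.KB

open Pool.Agent.H891R2.Jones Pool.Agent.W639.RB Pool.Agent.K6.H34.S3

/-- The outside of the box: what remains outside if one strand is deleted at the crossing `σ_i^{±1}`.
There are four marked points `0, 1, 2, 3` and no crossings; all strands run upwards in the box.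
`s = false`: the strand from the upper end at the place `i + 1` to the lower end at the place `i` is
deleted, so that the lower end at the place `i` is the tail (marked point `0`), the upper end at the place
`i + 1` is the head (marked point `3`), and the upper end at the place `i` is joined to the lower end at
the place `i + 1` (marked point `1`).
`s = true`: the other strand is deleted, so that the lower end at the place `i + 1` is the tail (marked
point `0`), the upper end at the place `i` is the head (marked point `3`), and the upper end at the place
`i + 1` is joined to the lower end at the place `i` (marked point `1`).
The upper end at the remaining place (`2` for `i = 0`, `0` for `i = 1`) is joined to the lower end at the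
same place (marked point `2`). -/
def cutOpen (i : Fin 2) (s : Bool) : Outer 3 where
  P := Fin 4
  arcs := []
  crossings := []
  lower := if i = 0 then (if s then ![1, 0, 2] else ![0, 1, 2]) else
    (if s then ![2, 1, 0] else ![2, 0, 1])
  upper := if i = 0 then (if s then ![3, 1, 2] else ![1, 3, 2]) else
    (if s then ![2, 3, 1] else ![2, 1, 3])
  up := fun _ => true

/-- The diagram which remains of the closure of `w σ_i^{±1}`. -/
def knotoid (i : Fin 2) (s : Bool) (w : Word) : Diagram (draw (cutOpen i s) (nat w)).P :=
  (draw (cutOpen i s) (nat w)).close

/-- The outside of the box for two strands.  `s = false`: the lower end at the place `0` is the tail, the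
upper end at the place `1` the head, and the upper end at the place `0` is joined to the lower end at the
place `1`.  `s = true`: the lower end at the place `1` is the tail, the upper end at the place `0` the
head, and the upper end at the place `1` is joined to the lower end at the place `0`. -/
def cutOpenTwo (s : Bool) : Outer 2 where
  P := Fin 3
  arcs := []
  crossings := []
  lower := if s then ![1, 0] else ![0, 1]
  upper := if s then ![2, 1] else ![1, 2]
  up := fun _ => true

/-- The diagram of a knotoid given by a word `v` in `σ_0^{±1}` on two strands. -/
def small (s : Bool) (v : List Bool) : Diagram (draw (cutOpenTwo s) (v.map fun b => (b, 0))).P :=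
  (draw (cutOpenTwo s) (v.map fun b => (b, 0))).close

/-- A word on three strands or on two strands; for given `i` and `s` it stands for the knotoid diagram
`knotoid i s w` or `small s v`. -/
inductive Dgm
  | three (w : Word)
  | two (v : List Bool)

/-- a word in `σ^{±1}` on two strands as a word in `σ_i^{±1}` on three strands -/
def side (i : Fin 2) (v : List Bool) : Word := v.map fun b => (b, i)

/-- Moves of these diagrams.  `cancel`, `cancel'`: Reidemeister moves of type II; `braid`: a
Reidemeister move of type III; `first`: a Reidemeister move of type I: if the strand of the box at the
place whose two ends are joined outside takes part in one crossing only, then it forms together with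
this crossing a loop with nothing inside, and the loop is removed (the two remaining strands are
numbered `0`, `1`).  None of the moves moves a strand over or under an endpoint. -/
inductive Move (i : Fin 2) : Dgm → Dgm → Prop
  | cancel (u v : Word) (b : Bool) (j : Fin 2) :
      Move i (.three (u ++ (b, j) :: (!b, j) :: v)) (.three (u ++ v))
  | braid (u v : Word) (b : Bool) :
      Move i (.three (u ++ (b, 0) :: (b, 1) :: (b, 0) :: v))
        (.three (u ++ (b, 1) :: (b, 0) :: (b, 1) :: v))
  | first (u v : List Bool) (b : Bool) :
      Move i (.three (side i u ++ (b, 1 - i) :: side i v)) (.two (u ++ v))
  | cancel' (u v : List Bool) (b : Bool) : Move i (.two (u ++ b :: (!b) :: v)) (.two (u ++ v))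

/-- The diagram can be changed by moves and inverse moves into the diagram of the trivial knotoid
without crossings. -/
def Untied (i : Fin 2) (X : Dgm) : Prop := Relation.EqvGen (Move i) X (.two [])

end Pool.Agent.K6.H14.KB
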