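import Pool.Agent.K6.H34.S3.Alg
import Pool.Agent.K6.H14.KB.Defs

/-!
# The functional for the knotoids cut out of closed braids on three strands
-/

set_option autoImplicit false

namespace Pool.Agent.K6.H14.KB

open LaurentPolynomial Complex Pool.Agent.K6.H34.S3

section rep

variable {S : Type*} [CommRing S]

/-- the twisted trace -/
def tb (a : Sˣ) (M : Matrix (Fin 2) (Fin 2) S) : S := (1 + dl a) * M 1 1 + M 0 0 + M 0 1

def NB (a : Sˣ) : Matrix (Fin 2) (Fin 2) S := !![1, 0; 1, 1 + dl a]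

theorem tb_eq (a : Sˣ) (M : Matrix (Fin 2) (Fin 2) S) : tb a M = (NB a * M).trace := by
  simp only [tb, NB, Matrix.trace_fin_two, Matrix.mul_apply, Fin.sum_univ_two]
  simp
  ring

theorem commB (a : Sˣ) : Commute (NB a) ((g0 a : (Matrix (Fin 2) (Fin 2) S)ˣ) : Matrix (Fin 2) (Fin 2) S) := by
  change NB a * (g0 a).val = (g0 a).val * NB a
  have h := uv a
  simp only [NB, g0, dl]
  generalize ((a⁻¹ : Sˣ) : S) = b at *
  generalize (a : S) = c at *
  ext i j
  fin_cases i <;> fin_cases j <;> simp [Matrix.mul_apply, Fin.sum_univ_two]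
  · linear_combination (-c) * h
  · ring

/-- conjugation by `σ_0` -/
theorem tb_conj (a : Sˣ) (g : B3) (n : ℤ) :
    tb a (R a (σ 0 ^ n * g * σ 0 ^ (-n))).val = tb a (R a g).val := by
  rw [tb_eq, tb_eq, map_mul, map_mul, map_zpow, map_zpow, R_0, Units.val_mul, Units.val_mul,
    ← mul_assoc, Matrix.trace_mul_comm, ← mul_assoc, ← mul_assoc]
  have h : Commute (NB a) ((g0 a ^ (-n) : (Matrix (Fin 2) (Fin 2) S)ˣ) : Matrix (Fin 2) (Fin 2) S) :=
    (commB a).units_zpow_right (-n)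
  rw [← h.eq, mul_assoc (NB a), ← Units.val_mul, ← zpow_add]
  simp

theorem tb_C (a : Sˣ) (m : ℤ) (g : B3) :
    tb a (R a (C3 ^ m * g)).val = (((a⁻¹ ^ 6) ^ m : Sˣ) : S) * tb a (R a g).val := by
  rw [map_mul, map_zpow, R_C', ← map_zpow, Units.val_mul]
  simp only [Units.coe_map, RingHom.toMonoidHom_eq_coe, MonoidHom.coe_coe, Algebra.algebraMap_eq_smul_one,
    smul_mul_assoc, one_mul]
  simp only [tb, Matrix.smul_apply, smul_eq_mul]
  ring

/-- the value of the bracket, up to the factor `1 + dl a` -/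
def LamB (a : Sˣ) (g : B3) : S := (dl a ^ 2 - 2) * ((chi a g : Sˣ) : S) + tb a (R a g).val

theorem tb_one (a : Sˣ) : tb a (R a (σ 1 ^ (1:ℤ))).val =
    (1 + dl a) * (-(a : S) ^ 3) - (dl a ^ 2 - 2) * a := by
  rw [zpow_one, R_1, g1]
  have h := uv a
  simp only [tb, dl]
  generalize ((a⁻¹ : Sˣ) : S) = b at *
  generalize (a : S) = c at *
  simp
  linear_combination (c * (b * c + 1) + b ^ 3 - b) * h

theorem tb_neg (a : Sˣ) : tb a (R a (σ 1 ^ (-1:ℤ))).val =
    (1 + dl a) * (-((a⁻¹ : Sˣ) : S) ^ 3) - (dl a ^ 2 - 2) * ((a⁻¹ : Sˣ) : S) := by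
  rw [zpow_neg_one, map_inv, R_1]
  have h := uv a
  have e : ((g1 a)⁻¹ : (Matrix (Fin 2) (Fin 2) S)ˣ).val =
      !![-(a : S) ^ 3, (a : S); 0, ((a⁻¹ : Sˣ) : S)] := rfl
  rw [e]
  simp only [tb, dl]
  generalize ((a⁻¹ : Sˣ) : S) = b at *
  generalize (a : S) = c at *
  simp
  linear_combination (b * (b * c + 1) + c ^ 3 - c) * h

end rep

end Pool.Agent.K6.H14.KB
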