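import Pool.Agent.K6.H14.KB.Main

/-!
# The automorphism which exchanges the two generators
-/

set_option autoImplicit false

namespace Pool.Agent.K6.H14.KB

open LaurentPolynomial Pool.Agent.K6.H34.S3

/-- the automorphism which exchanges `σ_0` and `σ_1` -/
def flip : B3 →* B3 := mkHom (fun i => σ (1 - i)) (by simpa using br.symm)

theorem flip_σ (i : Fin 2) : flip (σ i) = σ (1 - i) := by simp [flip]

theorem flip_flip (g : B3) : flip (flip g) = g := by
  have h : flip.comp flip = MonoidHom.id B3 := by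
    apply hom_ext <;> simp [flip_σ]
  exact DFunLike.congr_fun h g

/-- the matrix which exchanges the two coordinates -/
def J (S : Type*) [CommRing S] : (Matrix (Fin 2) (Fin 2) S)ˣ where
  val := !![0, 1; 1, 0]
  inv := !![0, 1; 1, 0]
  val_inv := by simp [Matrix.one_fin_two]
  inv_val := by simp [Matrix.one_fin_two]

variable {S : Type*} [CommRing S]

theorem R_flip' (a : Sˣ) : (R a).comp flip = (MulAut.conj (J S)).toMonoidHom.comp (R a) := by
  apply hom_ext
  · apply Units.ext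
    show ((R a (flip (σ 0)) : (Matrix (Fin 2) (Fin 2) S)ˣ) : Matrix (Fin 2) (Fin 2) S) =
      ((J S * R a (σ 0) * (J S)⁻¹ : (Matrix (Fin 2) (Fin 2) S)ˣ) : Matrix (Fin 2) (Fin 2) S)
    rw [flip_σ, sub_zero, R_1, R_0, Units.val_mul, Units.val_mul]
    show (g1 a).val = !![0, 1; 1, 0] * (g0 a).val * !![0, 1; 1, 0]
    ext i j
    fin_cases i <;> fin_cases j <;> simp [g0, g1, Matrix.mul_apply, Fin.sum_univ_two]
  · apply Units.ext
    show ((R a (flip (σ 1)) : (Matrix (Fin 2) (Fin 2) S)ˣ) : Matrix (Fin 2) (Fin 2) S) =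
      ((J S * R a (σ 1) * (J S)⁻¹ : (Matrix (Fin 2) (Fin 2) S)ˣ) : Matrix (Fin 2) (Fin 2) S)
    rw [flip_σ, sub_self, R_1, R_0, Units.val_mul, Units.val_mul]
    show (g0 a).val = !![0, 1; 1, 0] * (g1 a).val * !![0, 1; 1, 0]
    ext i j
    fin_cases i <;> fin_cases j <;> simp [g0, g1, Matrix.mul_apply, Fin.sum_univ_two]

theorem R_flip (a : Sˣ) (g : B3) : (R a (flip g)).val =
    !![(R a g).val 1 1, (R a g).val 1 0; (R a g).val 0 1, (R a g).val 0 0] := by
  have h : R a (flip g) = J S * R a g * (J S)⁻¹ := DFunLike.congr_fun (R_flip' a) g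
  rw [h, Units.val_mul, Units.val_mul]
  show !![0, 1; 1, 0] * (R a g).val * !![0, 1; 1, 0] = _
  ext i j
  fin_cases i <;> fin_cases j <;>
    simp [Matrix.mul_apply, Fin.sum_univ_two, Matrix.vecMul, dotProduct]

theorem chi_flip (a : Sˣ) (g : B3) : chi a (flip g) = chi a g := by
  have h : (chi a).comp flip = chi a := by
    apply hom_ext <;> simp [flip_σ, chi_σ]
  exact DFunLike.congr_fun h g

theorem ex_flip (g : B3) : ex (flip g) = ex g := by
  have h : ex.comp flip = ex := by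
    apply hom_ext <;> simp [flip_σ, ex_σ]
  exact DFunLike.congr_fun h g

/-- exchange the two generators if `i = 1` -/
def flipI (i : Fin 2) (g : B3) : B3 := if i = 0 then g else flip g

theorem ex_flipI (i : Fin 2) (g : B3) : ex (flipI i g) = ex g := by
  unfold flipI; split_ifs
  · rfl
  · exact ex_flip g

theorem flipI_fam (i : Fin 2) (g : B3) (k ε : ℤ) :
    flipI i g = σ 0 ^ k * σ 1 ^ ε * σ 0 ^ (-k) ↔ g = σ i ^ k * σ (1 - i) ^ ε * σ i ^ (-k) := by
  have h1 : ∀ k : ℤ, flip (σ 0 ^ k * σ 1 ^ ε * σ 0 ^ (-k)) = σ 1 ^ k * σ 0 ^ ε * σ 1 ^ (-k) := by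
    intro k
    simp [flip_σ]
  fin_cases i
  · simp [flipI]
  · simp only [flipI, Fin.mk_one, Fin.isValue, one_ne_zero, if_false, sub_self]
    constructor
    · intro h
      rw [← flip_flip g, h, h1]
    · intro h
      rw [h, ← h1, flip_flip]

/-- **The algebraic form of the theorem.** -/
theorem algI_main (i : Fin 2) {g : B3} {e : ℤ} (he : ex g = Multiplicative.ofAdd e) {P : ℤ[T;T⁻¹]}
    (hP : (1 + dl uT) * P = LamB uT (flipI i g)) :
    sgn e * T (-3 * e) * P = 1 ↔
      ∃ k ε : ℤ, (ε = 1 ∨ ε = -1) ∧ g = σ i ^ k * σ (1 - i) ^ ε * σ i ^ (-k) := by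
  rw [algB_main (g := flipI i g) (by rw [ex_flipI]; exact he) hP]
  constructor
  · rintro ⟨k, ε, hε, h⟩
    exact ⟨k, ε, hε, (flipI_fam i g k ε).1 h⟩
  · rintro ⟨k, ε, hε, h⟩
    exact ⟨k, ε, hε, (flipI_fam i g k ε).2 h⟩

end Pool.Agent.K6.H14.KB
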