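import Pool.Agent.K6.H34.S3.Link
import Pool.Agent.K6.H34.S3.Words
import Pool.Agent.H297.FT.Knotoid
import Pool.Agent.K6.H14.KB.Flip

/-!
# The bracket of the knotoids cut out of closed braids on three strands
-/

set_option autoImplicit false

namespace Pool.Agent.K6.H14.KB

open Finset LaurentPolynomial Pool.Agent.H891R2.Jones Pool.Agent.W639.RB Pool.Agent.K6.H34.S3
  Pool.Agent.H832R3.TW Pool.Agent.H297.FT

variable {N : ℕ}

/-- a functional given by an outside with four marked points -/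
noncomputable def Fun (lo up : Fin 3 → Fin 4) (N : ℕ)
    (X : Module.End ℂ ((Fin 3 → Fin N) → ((Fin 3 → Fin N) → ℂ))) : ℂ :=
  ∑ x, ∑ y, ∑ z, ∑ t, X (fun x y => ind (x = y))
    ![(![x, y, z, t] : Fin 4 → Fin N) (lo 0), (![x, y, z, t] : Fin 4 → Fin N) (lo 1),
      (![x, y, z, t] : Fin 4 → Fin N) (lo 2)]
    ![(![x, y, z, t] : Fin 4 → Fin N) (up 0), (![x, y, z, t] : Fin 4 → Fin N) (up 1),
      (![x, y, z, t] : Fin 4 → Fin N) (up 2)]

theorem Fun_eq (A : ℂ) (lo up : Fin 3 → Fin 4) (u : Fin 3 → Bool)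
    (X : Module.End ℂ ((Fin 3 → Fin N) → ((Fin 3 → Fin N) → ℂ))) :
    Zg A N { P := Fin 4, arcs := [], crossings := [], lower := lo, upper := up, up := u }
      (X (fun x y => ind (x = y))) = Fun lo up N X := by
  unfold Fun Zg
  show ∑ col : Fin 4 → Fin N, WW A [] [] col * _ = _
  rw [sum_four]
  refine Finset.sum_congr rfl fun x _ => Finset.sum_congr rfl fun y _ =>
    Finset.sum_congr rfl fun z _ => Finset.sum_congr rfl fun t _ => ?_
  have h1 : ∀ l : Fin 3 → Fin 4, (fun i : Fin 3 => (![x, y, z, t] : Fin 4 → Fin N) (l i)) =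
      ![(![x, y, z, t] : Fin 4 → Fin N) (l 0), (![x, y, z, t] : Fin 4 → Fin N) (l 1),
      (![x, y, z, t] : Fin 4 → Fin N) (l 2)] := by
    intro l
    funext i; fin_cases i <;> rfl
  change WW (P := Fin 4) A [] [] ![x, y, z, t] * X (fun x y => ind (x = y))
    (fun i : Fin 3 => (![x, y, z, t] : Fin 4 → Fin N) (lo i))
    (fun i : Fin 3 => (![x, y, z, t] : Fin 4 → Fin N) (up i)) = _
  rw [h1, h1]
  simp [WW]

theorem Fun_add (lo up : Fin 3 → Fin 4)
    (X Y : Module.End ℂ ((Fin 3 → Fin N) → ((Fin 3 → Fin N) → ℂ))) :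
    Fun lo up N (X + Y) = Fun lo up N X + Fun lo up N Y := by
  simp only [Fun, LinearMap.add_apply, Pi.add_apply, Finset.sum_add_distrib]

theorem Fun_smul (lo up : Fin 3 → Fin 4) (c : ℂ)
    (X : Module.End ℂ ((Fin 3 → Fin N) → ((Fin 3 → Fin N) → ℂ))) :
    Fun lo up N (c • X) = c * Fun lo up N X := by
  simp only [Fun, LinearMap.smul_apply, Pi.smul_apply, smul_eq_mul, Finset.mul_sum]

theorem Fun_form (lo up : Fin 3 → Fin 4) (c b₀ b₁ g g' : ℂ) :
    Fun lo up N (c • 1 + b₀ • E N 0 + b₁ • E N 1 + g • (E N 1 * E N 0) + g' • (E N 0 * E N 1)) =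
      c * Fun lo up N 1 + b₀ * Fun lo up N (E N 0) + b₁ * Fun lo up N (E N 1) +
        g * Fun lo up N (E N 1 * E N 0) + g' * Fun lo up N (E N 0 * E N 1) := by
  rw [Fun_add, Fun_add, Fun_add, Fun_add, Fun_smul, Fun_smul, Fun_smul, Fun_smul, Fun_smul]

/-- the functional of the outside `cutOpen i s` -/
noncomputable abbrev ZB (i : Fin 2) (s : Bool) (N : ℕ)
    (X : Module.End ℂ ((Fin 3 → Fin N) → ((Fin 3 → Fin N) → ℂ))) : ℂ :=
  Fun (cutOpen i s).lower (cutOpen i s).upper N X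

theorem ZB_one (i : Fin 2) (s : Bool) : ZB i s N 1 = (N : ℂ) ^ 2 := by
  fin_cases i <;> cases s <;>
  · simp only [ZB, Fun, cutOpen, Module.End.one_apply, ind_three]
    simp
    try ring

theorem ZB_E0 (i : Fin 2) (s : Bool) : ZB i s N (E N 0) = if i = 0 then (N : ℂ) ^ 2 else N := by
  fin_cases i <;> cases s <;>
  · simp only [ZB, Fun, cutOpen, E0_apply, Finset.sum_apply, ite_apply, ind_three, Pi.zero_apply]
    simp
    try ring

theorem ZB_E1 (i : Fin 2) (s : Bool) : ZB i s N (E N 1) = if i = 0 then (N : ℂ) else (N : ℂ) ^ 2 := by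
  fin_cases i <;> cases s <;>
  · simp only [ZB, Fun, cutOpen, E1_apply, Finset.sum_apply, ite_apply, ind_three, Pi.zero_apply]
    simp
    try ring

theorem ZB_E01 (i : Fin 2) (s : Bool) : ZB i s N (E N 0 * E N 1) = N := by
  fin_cases i <;> cases s <;>
  · simp only [ZB, Fun, cutOpen, Module.End.mul_apply, E0_apply, E1_apply, Finset.sum_apply,
      ite_apply, ind_three, Pi.zero_apply]
    simp

theorem ZB_E10 (i : Fin 2) (s : Bool) : ZB i s N (E N 1 * E N 0) = N := by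
  fin_cases i <;> cases s <;>
  · simp only [ZB, Fun, cutOpen, Module.End.mul_apply, E0_apply, E1_apply, Finset.sum_apply,
      ite_apply, ind_three, Pi.zero_apply]
    simp

theorem ZB_form (i : Fin 2) (s : Bool) {A : ℂ} (hA : A ≠ 0) (hN : (N : ℂ) = -A^2 - A⁻¹^2)
    {X : Module.End ℂ ((Fin 3 → Fin N) → ((Fin 3 → Fin N) → ℂ))}
    {g : B3} (h : Form N X (R (Units.mk0 A hA) g).val ((chi (Units.mk0 A hA) g : ℂˣ) : ℂ)) :
    (1 + (N : ℂ)) * ZB i s N X = N * LamB (Units.mk0 A hA) (flipI i g) := by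
  have hd : dl (Units.mk0 A hA) = N := by rw [hN, dl]; simp
  have h1 : LamB (Units.mk0 A hA) (flipI i g) = ((N : ℂ) ^ 2 - 2) *
      ((chi (Units.mk0 A hA) g : ℂˣ) : ℂ) + (if i = 0 then
        (1 + (N : ℂ)) * (R (Units.mk0 A hA) g).val 1 1 + (R (Units.mk0 A hA) g).val 0 0 +
          (R (Units.mk0 A hA) g).val 0 1 else
        (1 + (N : ℂ)) * (R (Units.mk0 A hA) g).val 0 0 + (R (Units.mk0 A hA) g).val 1 1 +
          (R (Units.mk0 A hA) g).val 1 0) := by
    rw [LamB, tb, hd]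
    unfold flipI
    split_ifs
    · rfl
    · rw [chi_flip, R_flip]
      simp
  rw [h1]
  generalize (R (Units.mk0 A hA) g).val = M at h ⊢
  generalize ((chi (Units.mk0 A hA) g : ℂˣ) : ℂ) = c at h ⊢
  obtain ⟨b₀, b₁, g, g', rfl, rfl⟩ := h
  unfold ZB
  rw [Fun_form]
  have e1 := ZB_one (N := N) i s
  have e2 := ZB_E0 (N := N) i s
  have e3 := ZB_E1 (N := N) i s
  have e4 := ZB_E01 (N := N) i s
  have e5 := ZB_E10 (N := N) i s
  unfold ZB at e1 e2 e3 e4 e5
  rw [e1, e2, e3, e4, e5]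
  split_ifs <;> simp <;> ring

theorem ev_knotoid (i : Fin 2) (s : Bool) (M : ℕ) (hM : 3 ≤ M) (w : Word) :
    (1 + (M : ℂ)) * ev M hM (knotoid i s w).bracket =
      LamB (Units.mk0 (Ar M) (Ar_ne M hM)) (flipI i (braid w)) := by
  have : Nonempty (draw (cutOpen i s) (nat w)).P := ⟨(draw (cutOpen i s) (nat w)).lower 0⟩
  have h1 := ev_bracket M hM (knotoid i s w)
  unfold knotoid at h1 ⊢
  rw [Z_close, Zg_draw (nat w) (cutOpen i s) (nat_mem w)] at h1
  have h2 := ZB_form i s (Ar_ne M hM) (Ar_d M hM) (Form_word (Ar_ne M hM) (Ar_d M hM) w)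
  have h4 := Fun_eq (N := M) (Ar M) (cutOpen i s).lower (cutOpen i s).upper (cutOpen i s).up
    (rho (Ar M) 3 M (nat w))
  have h5 : Zg (Ar M) M (cutOpen i s) (rho (Ar M) 3 M (nat w) (fun x y => ind (x = y))) =
      Fun (cutOpen i s).lower (cutOpen i s).upper M (rho (Ar M) 3 M (nat w)) := h4
  unfold ZB at h2
  rw [← h5, ← h1] at h2
  have h3 : (M : ℂ) ≠ 0 := by
    have : M ≠ 0 := by omega
    exact_mod_cast this
  apply mul_left_cancel₀ h3
  rw [← h2]
  ring

theorem bracket_eq (i : Fin 2) (s : Bool) (w : Word) :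
    (1 + dl uT) * (knotoid i s w).bracket = LamB uT (flipI i (braid w)) := by
  have h : (1 + dl uT) * (knotoid i s w).bracket - LamB uT (flipI i (braid w)) + 1 = 1 := by
    apply eq_one_of_ev
    intro M hM
    have h1 := ev_knotoid i s M hM w
    have e1 : ∀ x, ev M hM x = evU (Units.mk0 (Ar M) (Ar_ne M hM)) x := fun _ => rfl
    rw [map_add, map_sub, map_mul, map_add, map_one, e1 (dl uT), evU_dl, e1 (LamB uT _), evU_LamB]
    have hd : dl (Units.mk0 (Ar M) (Ar_ne M hM)) = M := by rw [Ar_d M hM, dl]; simp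
    rw [hd, h1]
    ring
  linear_combination h

theorem writhe_eq (i : Fin 2) (s : Bool) (w : Word) : (knotoid i s w).writhe = expo (nat w) := by
  unfold knotoid
  rw [close_writhe, (draw_up (nat w) (cutOpen i s) (nat_mem w) (fun _ => rfl)).2]
  simp [owr, cutOpen]

theorem fPoly_eq (i : Fin 2) (s : Bool) (w : Word) : (knotoid i s w).fPoly =
    sgn (expo (nat w)) * T (-3 * expo (nat w)) * (knotoid i s w).bracket := by
  unfold Diagram.fPoly
  rw [writhe_eq]
  rfl

theorem fPoly_one_iff (i : Fin 2) (s : Bool) (w : Word) : (knotoid i s w).fPoly = 1 ↔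
    ∃ k ε : ℤ, (ε = 1 ∨ ε = -1) ∧ braid w = σ i ^ k * σ (1 - i) ^ ε * σ i ^ (-k) := by
  rw [fPoly_eq]
  exact algI_main i (ex_braid w) (bracket_eq i s w)

theorem kgood_draw {m : ℕ} (v : Fin m → Bool) (w : List (Bool × ℕ)) : ∀ (O : Outer m),
    KGood O v → KGood (draw O w) v := by
  induction w with
  | nil => intro O h; exact h
  | cons x w ih =>
    intro O h
    exact ih _ (KGood_push O v x.1 x.2 h)

theorem isKnotoid_cutOpen (i : Fin 2) (s : Bool) : IsKnotoid (cutOpen i s).close := by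
  refine ⟨(0 : Fin 4), (3 : Fin 4), show (0 : Fin 4) ≠ 3 by decide, ?_⟩
  intro p
  change Fin 4 at p
  have h1 : (cutOpen i s).close.starts = List.ofFn (cutOpen i s).lower := by
    fin_cases i <;> cases s <;> rfl
  have h2 : (cutOpen i s).close.ends = List.ofFn (cutOpen i s).upper := by
    fin_cases i <;> cases s <;> rfl
  rw [h1, h2]
  fin_cases i <;> cases s <;> fin_cases p <;> decide

theorem isKnotoid (i : Fin 2) (s : Bool) (w : Word) : IsKnotoid (knotoid i s w) := by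
  unfold knotoid
  have h1 := (draw_up (nat w) (cutOpen i s) (nat_mem w) (fun _ => rfl)).1
  have h2 : (draw (cutOpen i s) (nat w)).up = (cutOpen i s).up := by
    funext j
    rw [h1]
    rfl
  rw [knotoid_iff, h2]
  exact kgood_draw _ _ _ ((knotoid_iff _).1 (isKnotoid_cutOpen i s))

end Pool.Agent.K6.H14.KB
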