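import Pool.Agent.K6.H34.S3.Words
import Pool.Agent.K6.H34.S3.Eight
import Pool.Agent.K6.H14.KB.Main

/-!
# Which diagrams can be untied by the moves
-/

set_option autoImplicit false

namespace Pool.Agent.K6.H14.KB

open Pool.Agent.K6.H34.S3

theorem move_of_loc (i : Fin 2) {w w' : Word} (h : Loc w w') : Move i (.three w) (.three w') := by
  cases h with
  | cancel u v b i => exact Move.cancel u v b i
  | braid u v b => exact Move.braid u v b

theorem eqv_of_braid (i : Fin 2) {w w' : Word} (h : braid w = braid w') :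
    Relation.EqvGen (Move i) (.three w) (.three w') := by
  have h1 := loc_of_braid h
  clear h
  induction h1 with
  | rel a b h => exact .rel _ _ (move_of_loc i h)
  | refl a => exact .refl _
  | symm a b _ ih => exact .symm _ _ ih
  | trans a b c _ _ ih ih' => exact .trans _ _ _ ih ih'

/-- the exponent sum of a word on two strands -/
def es (v : List Bool) : ℤ := (v.map fun b => if b then (1:ℤ) else -1).sum

theorem braid_side (i : Fin 2) (v : List Bool) : braid (side i v) = σ i ^ es v := by
  induction v with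
  | nil => simp [side, es, braid]
  | cons b v ih =>
    have h1 : side i (b :: v) = (b, i) :: side i v := rfl
    have h2 : es (b :: v) = (if b then (1:ℤ) else -1) + es v := by simp [es]
    rw [h1, h2, braid_cons, ih, zpow_add]
    cases b <;> simp

/-- what is invariant -/
def Inv (i : Fin 2) : Dgm → Prop
  | .three w => ∃ k ε : ℤ, (ε = 1 ∨ ε = -1) ∧ braid w = σ i ^ k * σ (1 - i) ^ ε * σ i ^ (-k)
  | .two v => es v = 0

theorem Z01 (p ε q : ℤ) : (Z (σ 0 ^ p * σ 1 ^ ε * σ 0 ^ q)).val 0 1 = -ε := by
  rw [map_mul, map_mul, Units.val_mul, Units.val_mul, Z_0pow, Z_1pow, Z_0pow]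
  simp [Matrix.mul_apply, Fin.sum_univ_two]

theorem Z10 (p ε q : ℤ) : (Z (σ 1 ^ p * σ 0 ^ ε * σ 1 ^ q)).val 1 0 = ε := by
  rw [map_mul, map_mul, Units.val_mul, Units.val_mul, Z_0pow, Z_1pow, Z_1pow]
  simp [Matrix.mul_apply, Fin.sum_univ_two]

theorem eps_eq (i : Fin 2) {p ε q p' ε' q' : ℤ}
    (h : σ i ^ p * σ (1 - i) ^ ε * σ i ^ q = σ i ^ p' * σ (1 - i) ^ ε' * σ i ^ q') : ε = ε' := by
  fin_cases i
  · have h3 := congrArg (fun g => (Z g).val 0 1) h
    simp only [Fin.zero_eta, Fin.isValue, sub_zero, Z01] at h3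
    omega
  · have h3 := congrArg (fun g => (Z g).val 1 0) h
    simp only [Fin.mk_one, Fin.isValue, sub_self, Z10] at h3
    exact h3

theorem ex3 (i : Fin 2) (p ε q : ℤ) :
    Multiplicative.toAdd (ex (σ i ^ p * σ (1 - i) ^ ε * σ i ^ q)) = p + ε + q := by
  simp only [map_mul, map_zpow, ex_σ, toAdd_mul, toAdd_zpow, toAdd_ofAdd, smul_eq_mul]
  ring

theorem inv_first (i : Fin 2) (u v : List Bool) (b : Bool) :
    Inv i (.three (side i u ++ (b, 1 - i) :: side i v)) ↔ Inv i (.two (u ++ v)) := by
  have hb : ∃ ε : ℤ, (ε = 1 ∨ ε = -1) ∧ (if b then σ (1 - i) else (σ (1 - i))⁻¹) = σ (1 - i) ^ ε := by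
    cases b
    · exact ⟨-1, Or.inr rfl, by simp⟩
    · exact ⟨1, Or.inl rfl, by simp⟩
  obtain ⟨ε, hε, hb⟩ := hb
  have h1 : braid (side i u ++ (b, 1 - i) :: side i v) = σ i ^ es u * σ (1 - i) ^ ε * σ i ^ es v := by
    rw [braid_append, braid_cons, braid_side, braid_side, hb, mul_assoc]
  have h2 : es (u ++ v) = es u + es v := by simp [es]
  constructor
  · rintro ⟨k, δ, hδ, h⟩
    rw [h1] at h
    have h3 := eps_eq i h
    have h4 := congrArg (fun g => Multiplicative.toAdd (ex g)) h
    simp only [ex3] at h4
    show es (u ++ v) = 0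
    rw [h2]
    omega
  · intro h
    have h3 : es u + es v = 0 := by rw [← h2]; exact h
    refine ⟨es u, ε, hε, ?_⟩
    rw [h1, show es v = -es u by omega]

theorem inv_move {i : Fin 2} {X Y : Dgm} (h : Move i X Y) : Inv i X ↔ Inv i Y := by
  cases h with
  | cancel u v b j =>
    unfold Inv; dsimp only
    rw [braid_append, braid_cancel, ← braid_append]
  | braid u v b =>
    unfold Inv; dsimp only
    rw [braid_append, braid_braid, ← braid_append]
  | first u v b => exact inv_first i u v b
  | cancel' u v b =>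
    unfold Inv; dsimp only
    have : es (u ++ b :: (!b) :: v) = es (u ++ v) := by cases b <;> simp [es]
    rw [this]

theorem inv_eqv {i : Fin 2} {X Y : Dgm} (h : Relation.EqvGen (Move i) X Y) : Inv i X ↔ Inv i Y := by
  induction h with
  | rel a b h => exact inv_move h
  | refl a => exact Iff.rfl
  | symm a b _ ih => exact ih.symm
  | trans a b c _ _ ih ih' => exact ih.trans ih'

theorem two_untied (i : Fin 2) (b : Bool) (n : ℕ) :
    Untied i (.two (List.replicate n b ++ List.replicate n (!b))) := by
  induction n with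
  | zero => exact .refl _
  | succ n ih =>
    refine .trans _ _ _ (.rel _ _ ?_) ih
    have h := Move.cancel' (i := i) (List.replicate n b) (List.replicate n (!b)) b
    rw [List.replicate_succ', List.replicate_succ, List.append_assoc]
    exact h

theorem side_replicate (i : Fin 2) (b : Bool) (n : ℕ) :
    side i (List.replicate n b) = List.replicate n (b, i) := by
  simp [side]

theorem untied_of_braid (i : Fin 2) {w : Word} {k ε : ℤ} (hε : ε = 1 ∨ ε = -1)
    (h : braid w = σ i ^ k * σ (1 - i) ^ ε * σ i ^ (-k)) : Untied i (.three w) := by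
  have key : ∀ (b c : Bool) (n : ℕ), braid w = (if b then σ i else (σ i)⁻¹) ^ n *
      (if c then σ (1 - i) else (σ (1 - i))⁻¹) * (if (!b) then σ i else (σ i)⁻¹) ^ n →
      Untied i (.three w) := by
    intro b c n hw
    refine .trans _ _ _ (eqv_of_braid i (w' := side i (List.replicate n b) ++ (c, 1 - i) ::
      side i (List.replicate n (!b))) ?_)
      (.trans _ _ _ (.rel _ _ (Move.first _ _ c)) (two_untied i b n))
    rw [hw, braid_append, braid_cons, side_replicate, side_replicate, braid_replicate,
      braid_replicate, mul_assoc]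
  rcases hε with rfl | rfl <;> rcases k with n | n
  · apply key true true n
    rw [h]
    simp
  · apply key false true (n+1)
    rw [h, zpow_negSucc]
    simp only [Bool.false_eq_true, if_false, Bool.not_false, if_true, Int.neg_negSucc, inv_pow,
      zpow_one]
    congr 1
  · apply key true false n
    rw [h]
    simp
  · apply key false false (n+1)
    rw [h, zpow_negSucc]
    simp only [Bool.false_eq_true, if_false, Bool.not_false, if_true, Int.neg_negSucc, inv_pow,
      zpow_neg_one]
    congr 1

theorem untied_iff (i : Fin 2) (w : Word) : Untied i (.three w) ↔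
    ∃ k ε : ℤ, (ε = 1 ∨ ε = -1) ∧ braid w = σ i ^ k * σ (1 - i) ^ ε * σ i ^ (-k) := by
  constructor
  · intro h
    exact (inv_eqv h).2 (show es [] = 0 from rfl)
  · rintro ⟨k, ε, hε, hk⟩
    exact untied_of_braid i hε hk

end Pool.Agent.K6.H14.KB
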